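import Pool.Agent.Helper29.Sep98.Defs

/-! Clubs, stationary sets and closure points. -/

universe u

namespace Sep98

open Cardinal Ordinal

variable {κ : Cardinal.{u}}

/-- `α` is a nonzero closure point of `c` -/
def Cl (c : Ordinal.{u} → Ordinal.{u}) (α : Ordinal.{u}) : Prop :=
  α ≠ 0 ∧ ∀ ξ < α, c ξ < α

/-- function form of stationarity -/
def StatF (S : Set Ordinal.{u}) (o : Ordinal.{u}) : Prop :=
  ∀ c : Ordinal.{u} → Ordinal.{u}, (∀ ξ < o, c ξ < o) → ∃ α ∈ S, α < o ∧ Cl c α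

theorem bdd (hκ : κ.IsRegular) {β : Type (u + 1)} (f : β → Ordinal.{u})
    (hβ : #β < Cardinal.lift.{u + 1} κ) (hf : ∀ i, f i < κ.ord) :
    ∃ b < κ.ord, ∀ i, f i < b := by
  have hs : Small.{u} β := by
    rw [Cardinal.small_iff_lift_mk_lt_univ]
    have h1 : Cardinal.lift.{u + 1, u} κ < Cardinal.univ.{u, u + 1} := Cardinal.lift_lt_univ κ
    simpa using hβ.trans h1
  refine ⟨⨆ i, f i + 1, ?_, fun i => ?_⟩
  · apply Ordinal.lift_iSup_add_one_lt_of_lt_cof _ hf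
    rw [← Ordinal.lift_cof, hκ.cof_ord]
    exact (Cardinal.lift_id'.{u, u + 1} (#β)).trans_lt hβ
  · exact Ordinal.lt_iSup_add_one (f := f) i

theorem card_Iio_lt {b : Ordinal.{u}} (hb : b < κ.ord) :
    #(Set.Iio b) < Cardinal.lift.{u + 1} κ := by
  rw [Cardinal.mk_Iio_ordinal, Cardinal.lift_lt]
  exact Cardinal.lt_ord.1 hb

theorem bdd_Iio (hκ : κ.IsRegular) (c : Ordinal.{u} → Ordinal.{u}) {b : Ordinal.{u}}
    (hb : b < κ.ord) (hc : ∀ ξ < b, c ξ < κ.ord) : ∃ b' < κ.ord, ∀ ξ < b, c ξ < b' := by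
  obtain ⟨b', h1, h2⟩ := bdd hκ (fun x : Set.Iio b => c x.1) (card_Iio_lt hb) (fun x => hc _ x.2)
  exact ⟨b', h1, fun ξ hξ => h2 ⟨ξ, hξ⟩⟩

theorem isSuccLimit (hω : ℵ₀ < κ) : Order.IsSuccLimit κ.ord := Cardinal.isSuccLimit_ord hω.le

theorem succ_lt (hω : ℵ₀ < κ) {a : Ordinal.{u}} (ha : a < κ.ord) : a + 1 < κ.ord := by
  have h := (isSuccLimit hω).succ_lt ha
  rwa [← Order.succ_eq_add_one]

theorem step (hκ : κ.IsRegular) (hω : ℵ₀ < κ) (c : Ordinal.{u} → Ordinal.{u})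
    (hc : ∀ ξ < κ.ord, c ξ < κ.ord) (b : Ordinal.{u}) (hb : b < κ.ord) :
    ∃ b' < κ.ord, b < b' ∧ ∀ ξ < b, c ξ < b' := by
  obtain ⟨b', h1, h2⟩ := bdd_Iio hκ c hb (fun ξ hξ => hc ξ (hξ.trans hb))
  refine ⟨max b' (b + 1), max_lt h1 (succ_lt hω hb), ?_, fun ξ hξ => (h2 ξ hξ).trans_le (le_max_left _ _)⟩
  exact (lt_add_one b).trans_le (le_max_right _ _)

/-- the closure points of a function are unbounded -/
theorem cl_unbdd (hκ : κ.IsRegular) (hω : ℵ₀ < κ) (c : Ordinal.{u} → Ordinal.{u})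
    (hc : ∀ ξ < κ.ord, c ξ < κ.ord) (a : Ordinal.{u}) (ha : a < κ.ord) :
    ∃ α < κ.ord, a < α ∧ Cl c α := by
  classical
  have hst := step hκ hω c hc
  choose g hg1 hg2 hg3 using hst
  let s : ℕ → Set.Iio κ.ord := fun n => Nat.rec ⟨a, ha⟩ (fun _ x => ⟨g x.1 x.2, hg1 x.1 x.2⟩) n
  have hs0 : (s 0).1 = a := rfl
  have hs1 : ∀ n, (s n).1 < (s (n + 1)).1 := fun n => hg2 _ _
  have hs2 : ∀ n, ∀ ξ < (s n).1, c ξ < (s (n + 1)).1 := fun n => hg3 _ _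
  have hN : ∀ n, (s n).1 < κ.ord := fun n => (s n).2
  have hsup : (⨆ n, (s n).1) < κ.ord := by
    apply Ordinal.lift_iSup_lt_of_lt_cof _ hN
    rw [← Ordinal.lift_cof, hκ.cof_ord]
    simpa using hω
  have hle : ∀ n, (s n).1 ≤ ⨆ n, (s n).1 := fun n => Ordinal.le_iSup (fun n => (s n).1) n
  have haα : a < ⨆ n, (s n).1 := (hs1 0).trans_le (hle 1)
  refine ⟨⨆ n, (s n).1, hsup, haα, ?_, ?_⟩
  · exact (zero_le.trans_lt haα).ne'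
  · intro ξ hξ
    obtain ⟨n, hn⟩ := Ordinal.lt_iSup_iff.1 hξ
    exact (hs2 n ξ hn).trans_le (hle (n + 1))

theorem cl_club (hκ : κ.IsRegular) (hω : ℵ₀ < κ) (c : Ordinal.{u} → Ordinal.{u})
    (hc : ∀ ξ < κ.ord, c ξ < κ.ord) : IsClubIn {α | α < κ.ord ∧ Cl c α} κ.ord := by
  refine ⟨fun α h => h.1, ?_, ?_⟩
  · intro a ha
    obtain ⟨α, h1, h2, h3⟩ := cl_unbdd hκ hω c hc a ha
    exact ⟨α, ⟨h1, h3⟩, h2⟩
  · intro d hd hd0 h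
    refine ⟨hd, hd0, fun ξ hξ => ?_⟩
    obtain ⟨x, hx, h1, h2⟩ := h ξ hξ
    exact (hx.2.2 ξ h1).trans h2

/-- the next element of a club -/
theorem club_next {C : Set Ordinal.{u}} {o : Ordinal.{u}} (hC : IsClubIn C o) :
    ∃ c : Ordinal.{u} → Ordinal.{u}, (∀ ξ < o, c ξ < o ∧ c ξ ∈ C ∧ ξ < c ξ) ∧
      ∀ α < o, Cl c α → α ∈ C := by
  classical
  choose! c hc1 hc2 using hC.2.1
  refine ⟨c, fun ξ hξ => ⟨hC.1 (hc1 ξ hξ), hc1 ξ hξ, hc2 ξ hξ⟩, fun α hα h => ?_⟩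
  exact hC.2.2 α hα h.1 fun ξ hξ => ⟨c ξ, hc1 ξ (hξ.trans hα), hc2 ξ (hξ.trans hα), h.2 ξ hξ⟩

theorem stat_iff (hκ : κ.IsRegular) (hω : ℵ₀ < κ) {S : Set Ordinal.{u}} :
    IsStationaryIn S κ.ord ↔ StatF S κ.ord := by
  constructor
  · intro h c hc
    obtain ⟨α, h1, h2⟩ := h _ (cl_club hκ hω c hc)
    exact ⟨α, h1, h2.1, h2.2⟩
  · intro h C hC
    obtain ⟨c, hc1, hc2⟩ := club_next hC
    obtain ⟨α, h1, h2, h3⟩ := h c (fun ξ hξ => (hc1 ξ hξ).1)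
    exact ⟨α, h1, hc2 α h2 h3⟩

theorem cl_max {c c' : Ordinal.{u} → Ordinal.{u}} {α : Ordinal.{u}} :
    Cl (fun ξ => max (c ξ) (c' ξ)) α ↔ Cl c α ∧ Cl c' α := by
  constructor
  · intro h
    exact ⟨⟨h.1, fun ξ hξ => (le_max_left _ _).trans_lt (h.2 ξ hξ)⟩,
      ⟨h.1, fun ξ hξ => (le_max_right _ _).trans_lt (h.2 ξ hξ)⟩⟩
  · intro h
    exact ⟨h.1.1, fun ξ hξ => max_lt (h.1.2 ξ hξ) (h.2.2 ξ hξ)⟩

end Sep98
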