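import Pool.Agent.Helper29.Sep98.Basic

/-! The branch lemma: from the partition property to branches. -/

universe u

namespace Sep98

open Cardinal Ordinal

variable {κ : Cardinal.{u}}

theorem power_lt (hκ : κ.IsInaccessible) {a b : Cardinal.{u}} (ha : a < κ) (hb : b < κ) :
    a ^ b < κ := by
  have hs := hκ.isStrongLimit
  have hω := hκ.aleph0_lt
  have h1 : a ^ b ≤ 2 ^ (a * b) := by
    rw [Cardinal.power_mul]
    exact Cardinal.power_le_power_right (Cardinal.cantor a).le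
  refine h1.trans_lt (hs.isStrongPrelimit ?_)
  exact Cardinal.mul_lt_of_lt hω.le ha hb

/-- an unbounded set is not the union of fewer than `κ` bounded pieces -/
theorem pigeon (hκ : κ.IsRegular) {V : Type (u + 1)} (hV : #V < Cardinal.lift.{u + 1} κ)
    {H : Set (K κ)} (hH : ∀ a : K κ, ∃ x ∈ H, a < x) (r : K κ → V) :
    ∃ s : V, ∀ a : K κ, ∃ x ∈ H, a < x ∧ r x = s := by
  by_contra hcon
  push Not at hcon
  choose a ha using hcon
  obtain ⟨b, hb, hb2⟩ := bdd hκ (fun s => (a s).1) hV (fun s => (a s).2)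
  obtain ⟨x, hx, hx2⟩ := hH ⟨b, hb⟩
  have h1 : (a (r x)).1 < b := hb2 (r x)
  have h2 : a (r x) < x := lt_trans (show a (r x) < (⟨b, hb⟩ : K κ) from h1) hx2
  exact ha (r x) x hx h2 rfl

theorem unbdd_of_card (H : Set (K κ)) (hH : #H = Cardinal.lift.{u + 1} κ) (hω : ℵ₀ < κ) :
    ∀ a : K κ, ∃ x ∈ H, a < x := by
  intro a
  by_contra hcon
  push Not at hcon
  have ha1 : a.1 + 1 < κ.ord := succ_lt hω a.2
  have hinj : ∃ f : H → Set.Iio (a.1 + 1), Function.Injective f := by
    refine ⟨fun x => ⟨x.1.1, ?_⟩, ?_⟩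
    · have h := hcon x.1 x.2
      exact lt_of_le_of_lt (show x.1.1 ≤ a.1 from h) (lt_add_one _)
    · intro x y h
      apply Subtype.ext
      apply Subtype.ext
      exact congrArg (fun z => z.1) h
  obtain ⟨f, hf⟩ := hinj
  have h1 := Cardinal.mk_le_of_injective hf
  rw [hH] at h1
  exact (h1.trans_lt (card_Iio_lt ha1)).false

/-- lexicographic order -/
def Less (t : K κ → K κ → Ordinal.{u}) (x y : K κ) : Prop :=
  ∃ i, (∀ j < i, t x j = t y j) ∧ t x i < t y i

theorem first_diff (t : K κ → K κ → Ordinal.{u}) (x y i : K κ) (h : ¬ ∀ j < i, t x j = t y j) :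
    ∃ k < i, (∀ j < k, t x j = t y j) ∧ t x k ≠ t y k := by
  classical
  push Not at h
  obtain ⟨j, hj, hne⟩ := h
  have hex : ∃ j, t x j ≠ t y j := ⟨j, hne⟩
  let k := WellFounded.min (wellFounded_lt (α := K κ)) {j | t x j ≠ t y j} hex
  have hk : t x k ≠ t y k := WellFounded.min_mem _ {j | t x j ≠ t y j} hex
  have hk2 : ∀ j < k, t x j = t y j := by
    intro j hj
    by_contra hne
    exact WellFounded.not_lt_min (wellFounded_lt (α := K κ)) {j | t x j ≠ t y j} hne hj
  refine ⟨k, ?_, hk2, hk⟩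
  by_contra hki
  exact hne (hk2 j (hj.trans_le (not_lt.1 hki)))

theorem less_of_first {t : K κ → K κ → Ordinal.{u}} {x y k : K κ}
    (h : ∀ j < k, t x j = t y j) (hk : t x k ≠ t y k) : Less t x y ↔ t x k < t y k := by
  constructor
  · rintro ⟨i, hi, hlt⟩
    rcases lt_trichotomy i k with h1 | h1 | h1
    · exact absurd hlt (by rw [h i h1]; exact lt_irrefl _)
    · rwa [h1] at hlt
    · exact absurd (hi k h1) hk
  · intro hlt
    exact ⟨k, h, hlt⟩

theorem branch (hw : WeaklyCompact κ) (t : K κ → K κ → Ordinal.{u}) (B : K κ → Ordinal.{u})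
    (hB : ∀ i, B i < κ.ord) (ht : ∀ x i, t x i ≤ B i) :
    ∃ b : K κ → Ordinal.{u}, ∀ i a : K κ, ∃ x : K κ, a < x ∧ ∀ j < i, t x j = b j := by
  classical
  have hκ := hw.1.isRegular
  have hω := hw.1.aleph0_lt
  obtain ⟨H, hH1, hH2⟩ := hw.2 (Less t)
  have hHu := unbdd_of_card H hH1 hω
  -- eventually constant restrictions
  have key : ∀ i : K κ, ∃ x0 ∈ H, ∀ x ∈ H, x0 < x → ∀ j < i, t x j = t x0 j := by
    intro i
    have hmem : ∀ j : Set.Iio i.1, j.1 < κ.ord := fun j => lt_trans (show j.1 < i.1 from j.2) i.2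
    obtain ⟨B', hB', hB2⟩ := bdd hκ (fun j : Set.Iio i.1 => B ⟨j.1, hmem j⟩)
      (card_Iio_lt i.2) (fun j => hB _)
    let V := Set.Iio i.1 → Set.Iio B'
    have hV : #V < Cardinal.lift.{u + 1} κ := by
      have e : #V = Cardinal.lift.{u + 1} (B'.card ^ i.1.card) := by
        rw [Cardinal.lift_power, ← Cardinal.mk_Iio_ordinal, ← Cardinal.mk_Iio_ordinal]
        exact (Cardinal.power_def _ _).symm
      rw [e, Cardinal.lift_lt]
      exact power_lt hw.1 (Cardinal.lt_ord.1 hB') (Cardinal.lt_ord.1 i.2)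
    let r : K κ → V := fun x j => ⟨t x ⟨j.1, hmem j⟩, (ht _ _).trans_lt (hB2 j)⟩
    obtain ⟨s, hs⟩ := pigeon hκ hV hHu r
    have hr : ∀ x y : K κ, r x = r y → ∀ j < i, t x j = t y j := by
      intro x y hxy j hj
      have h1 := congrFun hxy ⟨j.1, hj⟩
      exact congrArg (fun z : Set.Iio B' => z.1) h1
    obtain ⟨x0, hx0, -, hx02⟩ := hs i
    refine ⟨x0, hx0, fun x hx hlt => ?_⟩
    obtain ⟨y, hy, hxy, hy2⟩ := hs x
    have h0y : ∀ j < i, t x0 j = t y j := hr _ _ (hx02.trans hy2.symm)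
    by_contra hne
    have hne' : ¬ ∀ j < i, t x0 j = t x j := fun h => hne fun j hj => (h j hj).symm
    obtain ⟨k, hki, hk1, hk2⟩ := first_diff t x0 x i hne'
    have hk3 : ∀ j < k, t x j = t y j := fun j hj => (hk1 j hj).symm.trans (h0y j (hj.trans hki))
    have hk4 : t x k ≠ t y k := by
      rw [← h0y k hki]
      exact fun h => hk2 h.symm
    rcases hH2 with hc | hc
    · have h1 := (less_of_first hk1 hk2).1 (hc x0 hx0 x hx hlt)
      have h2 := (less_of_first hk3 hk4).1 (hc x hx y hy hxy)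
      rw [← h0y k hki] at h2
      exact (h1.trans h2).false
    · have h1 : ¬ t x0 k < t x k := fun h => hc x0 hx0 x hx hlt ((less_of_first hk1 hk2).2 h)
      have h2 : ¬ t x k < t y k := fun h => hc x hx y hy hxy ((less_of_first hk3 hk4).2 h)
      rw [← h0y k hki] at h2
      exact hk2 (le_antisymm (not_lt.1 h2) (not_lt.1 h1))
  choose x0 hx0 hx1 using key
  let sc : K κ → K κ := fun j => ⟨j.1 + 1, succ_lt hω j.2⟩
  have hsc : ∀ j, j < sc j := fun j => (lt_add_one j.1 : j.1 < j.1 + 1)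
  refine ⟨fun j => t (x0 (sc j)) j, fun i a => ?_⟩
  obtain ⟨x, hx, hxa⟩ := hHu (max a (x0 i))
  refine ⟨x, (le_max_left _ _).trans_lt hxa, fun j hj => ?_⟩
  obtain ⟨y, hy, hya⟩ := hHu (max (x0 i) (x0 (sc j)))
  have e1 := hx1 i x hx ((le_max_right _ _).trans_lt hxa) j hj
  have e2 := hx1 i y hy ((le_max_left _ _).trans_lt hya) j hj
  have e3 := hx1 (sc j) y hy ((le_max_right _ _).trans_lt hya) j (hsc j)
  rw [e1, ← e2, e3]

end Sep98
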