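import Mathlib

/-!
Definitions for the theorem `Sep98.result` (problem MP_98c5a3_lc).

A cardinal `κ` is identified, as usual, with the set `Set.Iio κ.ord` of the ordinals below it.
-/

universe u

namespace Sep98

open Cardinal Ordinal

/-- the set `κ` of ordinals -/
abbrev K (κ : Cardinal.{u}) : Type (u + 1) := Set.Iio κ.ord

/-- the generalized Baire space `κ^κ` -/
def BS (κ : Cardinal.{u}) : Type (u + 1) := K κ → K κ

/-- the topology of `κ^κ`, generated by the basic open sets `{f | f extends the restriction of s to a}`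
for `a < κ` -/
instance (κ : Cardinal.{u}) : TopologicalSpace (BS κ) :=
  TopologicalSpace.generateFrom
    {U : Set (BS κ) | ∃ (a : K κ) (s : BS κ), U = {f : BS κ | ∀ x : K κ, x < a → f x = s x}}

/-- `A` is `Σ¹₁`: the projection of a closed subset of `κ^κ × κ^κ` (with the product topology) -/
def Sigma11 (κ : Cardinal.{u}) (A : Set (BS κ)) : Prop :=
  ∃ P : Set (BS κ × BS κ), IsClosed P ∧ A = Prod.fst '' P

/-- the `Σ¹₁`-separation property of `κ^κ` -/
def Separation (κ : Cardinal.{u}) : Prop :=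
  ∀ A B : Set (BS κ), Sigma11 κ A → Sigma11 κ B → Disjoint A B →
    ∃ C : Set (BS κ), Sigma11 κ C ∧ Sigma11 κ Cᶜ ∧ A ⊆ C ∧ Disjoint C B

/-- `κ` is weakly compact: `κ` is inaccessible and `κ → (κ)²₂` -/
def WeaklyCompact (κ : Cardinal.{u}) : Prop :=
  κ.IsInaccessible ∧
    ∀ c : K κ → K κ → Prop, ∃ H : Set (K κ), #H = Cardinal.lift.{u + 1} κ ∧
      ((∀ x ∈ H, ∀ y ∈ H, x < y → c x y) ∨ (∀ x ∈ H, ∀ y ∈ H, x < y → ¬ c x y))

/-- `C` is closed and unbounded in the ordinal `o` -/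
def IsClubIn (C : Set Ordinal.{u}) (o : Ordinal.{u}) : Prop :=
  C ⊆ Set.Iio o ∧ (∀ a < o, ∃ x ∈ C, a < x) ∧
    ∀ d < o, d ≠ 0 → (∀ a < d, ∃ x ∈ C, a < x ∧ x < d) → d ∈ C

/-- `S ∩ o` is a stationary subset of `o` -/
def IsStationaryIn (S : Set Ordinal.{u}) (o : Ordinal.{u}) : Prop :=
  ∀ C : Set Ordinal.{u}, IsClubIn C o → (S ∩ C).Nonempty

/-- the set of regular uncountable cardinals below `κ` -/
def Reg (κ : Cardinal.{u}) : Set Ordinal.{u} :=
  {α | ∃ μ : Cardinal.{u}, μ.IsRegular ∧ ℵ₀ < μ ∧ μ < κ ∧ α = μ.ord}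

/-- Jech's relation `S < T` between stationary subsets of `κ`: `S ∩ α` is stationary in `α` for
almost all `α ∈ T` (all `α` in the intersection of `T` and a closed unbounded set) -/
def Below (κ : Cardinal.{u}) (S T : Set Ordinal.{u}) : Prop :=
  ∃ C : Set Ordinal.{u}, IsClubIn C κ.ord ∧ ∀ α ∈ T ∩ C, IsStationaryIn S α

/-- Full Reflection at `κ` (Jech and Witzany), for an order function `o` in place of the rank of the
well-founded relation `<` -/
def FullReflection (κ : Cardinal.{u}) : Prop :=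
  ∃ o : Set Ordinal.{u} → Ordinal.{u + 1},
    ∀ S T : Set Ordinal.{u}, S ⊆ Reg κ → T ⊆ Reg κ →
      IsStationaryIn S κ.ord → IsStationaryIn T κ.ord →
        (Below κ S T → o S < o T) ∧ (o S < o T → ∃ α ∈ T, IsStationaryIn S α)

end Sep98
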