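import Pool.Agent.Helper29.Sep98.Defs

/-!
Definitions for the characterization of `Σ¹₁`-separation at a weakly compact cardinal.

A point `f` of `κ^κ` codes the set of all `x < κ` with `f x ≠ 0`.
-/

universe u

namespace Sep98

open Cardinal Ordinal

/-- the set coded by `f` contains almost all elements of `W` -/
def ClubOn (κ : Cardinal.{u}) (W : Set Ordinal.{u}) : Set (BS κ) :=
  {f | ∃ C : Set Ordinal.{u}, IsClubIn C κ.ord ∧ ∀ x : K κ, x.1 ∈ W → x.1 ∈ C → (f x).1 ≠ 0}

/-- the set coded by `f` has nonstationary intersection with `W` -/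
def NonstatOn (κ : Cardinal.{u}) (W : Set Ordinal.{u}) : Set (BS κ) :=
  {f | ∃ C : Set Ordinal.{u}, IsClubIn C κ.ord ∧ ∀ x : K κ, x.1 ∈ W → x.1 ∈ C → (f x).1 = 0}

/-- a `Δ¹₁` set separates the club filter from the nonstationary ideal, both restricted to `W` -/
def ClubSep (κ : Cardinal.{u}) (W : Set Ordinal.{u}) : Prop :=
  ∃ D : Set (BS κ), Sigma11 κ D ∧ Sigma11 κ Dᶜ ∧ ClubOn κ W ⊆ D ∧ Disjoint D (NonstatOn κ W)

end Sep98
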