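import Pool.Agent.Helper29.Sep98.Branch

/-! Small sets, and the whole cardinal is not small when it is weakly compact. -/

universe u

namespace Sep98

open Cardinal Ordinal

variable {κ : Cardinal.{u}}

/-- `F` is regressive -/
def Regr (F : ℕ → Ordinal.{u} → Ordinal.{u} → Ordinal.{u}) : Prop :=
  ∀ n α ξ, ξ < α → F n α ξ < α

/-- small sets of ordinals below `κ` -/
def SmallSet (κ : Cardinal.{u}) (I : Set Ordinal.{u}) : Prop :=
  ∃ F : ℕ → Ordinal.{u} → Ordinal.{u} → Ordinal.{u}, Regr F ∧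
    ∀ f : ℕ → Ordinal.{u} → Ordinal.{u}, (∀ n, ∀ ξ < κ.ord, f n ξ < κ.ord) →
      ∃ β < κ.ord, ∀ α ∈ I, β < α → α < κ.ord → ∃ n, ∃ ξ < β, F n α ξ ≠ f n ξ

/-- iterated values -/
noncomputable def hval (F : ℕ → Ordinal.{u} → Ordinal.{u} → Ordinal.{u}) :
    List (ℕ × K κ) → Ordinal.{u} → Ordinal.{u}
  | [], α => α
  | p :: l, α => by
      classical
      exact if p.2.1 < hval F l α then F p.1 (hval F l α) p.2.1 else 0

theorem hval_cons (F : ℕ → Ordinal.{u} → Ordinal.{u} → Ordinal.{u}) (p : ℕ × K κ)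
    (l : List (ℕ × K κ)) (α : Ordinal.{u}) (h : p.2.1 < hval F l α) :
    hval F (p :: l) α = F p.1 (hval F l α) p.2.1 := by
  simp [hval, h]

theorem hval_le {F : ℕ → Ordinal.{u} → Ordinal.{u} → Ordinal.{u}} (hF : Regr F)
    (l : List (ℕ × K κ)) (α : Ordinal.{u}) : hval F l α ≤ α := by
  induction l with
  | nil => exact le_refl _
  | cons p l ih =>
    by_cases h : p.2.1 < hval F l α
    · rw [hval_cons F p l α h]
      exact (hF _ _ _ h).le.trans ih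
    · simp [hval, h]

theorem mk_K (κ : Cardinal.{u}) : #(K κ) = Cardinal.lift.{u + 1} κ := by
  rw [Cardinal.mk_Iio_ordinal, Cardinal.card_ord]

theorem mk_J (hω : ℵ₀ < κ) : #(List (ℕ × K κ) × K κ) = #(K κ) := by
  have hK : ℵ₀ ≤ #(K κ) := by
    rw [mk_K, Cardinal.aleph0_le_lift]
    exact hω.le
  haveI : Infinite (K κ) := Cardinal.infinite_iff.2 hK
  haveI : Nonempty (K κ) := inferInstance
  have h1 : #(ℕ × K κ) = #(K κ) := by
    rw [Cardinal.mk_prod]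
    simp only [Cardinal.mk_nat, Cardinal.lift_aleph0, Cardinal.lift_id']
    exact Cardinal.aleph0_mul_eq hK
  rw [Cardinal.mk_prod, Cardinal.mk_list_eq_mk, h1]
  simp only [Cardinal.lift_id]
  exact Cardinal.mul_eq_self hK

theorem not_small (hw : WeaklyCompact κ) : ¬ SmallSet κ Set.univ := by
  classical
  rintro ⟨F, hF, hS⟩
  have hκ := hw.1.isRegular
  have hω := hw.1.aleph0_lt
  obtain ⟨e⟩ := Cardinal.eq.1 (mk_J (κ := κ) hω)
  -- the branch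
  obtain ⟨b, hb⟩ := branch hw (fun x i => min (hval F (e.symm i).1 x.1) (e.symm i).2.1)
    (fun i => (e.symm i).2.1) (fun i => (e.symm i).2.2) (fun x i => min_le_right _ _)
  let b' : List (ℕ × K κ) → K κ → Ordinal.{u} := fun l γ => b (e (l, γ))
  have agree : ∀ (ι : Type (u + 1)) (D : ι → List (ℕ × K κ) × K κ), #ι < Cardinal.lift.{u + 1} κ →
      ∀ a : K κ, ∃ x : K κ, a < x ∧ ∀ i, min (hval F (D i).1 x.1) (D i).2.1 = b' (D i).1 (D i).2 := by
    intro ι D hι a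
    obtain ⟨m, hm, hm2⟩ := bdd hκ (fun i => (e (D i)).1) hι (fun i => (e (D i)).2)
    obtain ⟨x, hx, hx2⟩ := hb ⟨m, hm⟩ a
    refine ⟨x, hx, fun i => ?_⟩
    have h1 := hx2 (e (D i)) (hm2 i)
    simpa using h1
  have hN : #(ULift.{u + 1} ℕ) < Cardinal.lift.{u + 1} κ := by
    simpa using hω
  have hU : #(ULift.{u + 1} Unit) < Cardinal.lift.{u + 1} κ := by
    have : (1 : Cardinal.{u}) < κ := Cardinal.one_lt_aleph0.trans hω
    simpa using this
  have zero_mem : (0 : Ordinal.{u}) < κ.ord := hκ.ord_pos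
  have hb'lt : ∀ l γ, b' l γ ≤ γ.1 := by
    intro l γ
    obtain ⟨x, -, hx⟩ := agree (ULift Unit) (fun _ => (l, γ)) hU ⟨0, zero_mem⟩
    rw [← hx ⟨()⟩]
    exact min_le_right _ _
  -- the unbounded lists
  let Unb : List (ℕ × K κ) → Prop := fun l => ∀ γ : K κ, b' l γ = γ.1
  have hnil : Unb [] := by
    intro γ
    obtain ⟨x, hx, hx2⟩ := agree (ULift Unit) (fun _ => ([], γ)) hU γ
    rw [← hx2 ⟨()⟩]
    exact min_eq_right (le_of_lt (show γ.1 < x.1 from hx))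
  have hstop : ∃ l, Unb l ∧ ∀ p : ℕ × K κ, ¬ Unb (p :: l) := by
    by_contra hcon
    push Not at hcon
    choose p hp using hcon
    let s : ℕ → {l // Unb l} := fun n =>
      Nat.rec ⟨[], hnil⟩ (fun _ l => ⟨p l.1 l.2 :: l.1, hp l.1 l.2⟩) n
    obtain ⟨γ, hγ, hγ2⟩ := bdd hκ (fun n : ULift.{u + 1} ℕ => (p (s n.down).1 (s n.down).2).2.1) hN
      (fun n => (p (s n.down).1 (s n.down).2).2.2)
    obtain ⟨x, -, hx⟩ := agree (ULift.{u + 1} ℕ) (fun n => ((s n.down).1, ⟨γ, hγ⟩)) hN ⟨γ, hγ⟩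
    have hge : ∀ n, γ ≤ hval F (s n).1 x.1 := by
      intro n
      have h1 := hx ⟨n⟩
      have h2 : b' (s n).1 ⟨γ, hγ⟩ = γ := (s n).2 ⟨γ, hγ⟩
      have h3 : min (hval F (s n).1 x.1) γ = γ := h1.trans h2
      exact min_eq_right_iff.1 h3
    have hdec : ∀ n, hval F (s (n + 1)).1 x.1 < hval F (s n).1 x.1 := by
      intro n
      have h1 : (p (s n).1 (s n).2).2.1 < hval F (s n).1 x.1 := (hγ2 ⟨n⟩).trans_le (hge n)
      have h2 : (s (n + 1)).1 = p (s n).1 (s n).2 :: (s n).1 := rfl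
      rw [h2, hval_cons _ _ _ _ h1]
      exact hF _ _ _ h1
    exact (RelEmbedding.natGT (fun n => hval F (s n).1 x.1) hdec).not_wellFounded
      (wellFounded_lt (α := Ordinal.{u}))
  obtain ⟨l, hl, hl2⟩ := hstop
  have hl3 : ∀ p : ℕ × K κ, ∃ γ : K κ, b' (p :: l) γ ≠ γ.1 := by
    intro p
    by_contra hcon
    push Not at hcon
    exact hl2 p hcon
  choose γ hγ using hl3
  let f : ℕ → Ordinal.{u} → Ordinal.{u} := fun n ξ =>
    if h : ξ < κ.ord then b' ((n, ⟨ξ, h⟩) :: l) (γ (n, ⟨ξ, h⟩)) else 0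
  have hf : ∀ n, ∀ ξ (h : ξ < κ.ord), f n ξ = b' ((n, ⟨ξ, h⟩) :: l) (γ (n, ⟨ξ, h⟩)) := by
    intro n ξ h
    simp only [f, dif_pos h]
  obtain ⟨β, hβ, hβ2⟩ := hS f (by
    intro n ξ h
    rw [hf n ξ h]
    exact (hb'lt _ _).trans_lt (γ (n, ⟨ξ, h⟩)).2)
  let ι : Type (u + 1) := Option (ℕ × Set.Iio β)
  have hmem : ∀ ξ : Set.Iio β, ξ.1 < κ.ord := fun ξ => lt_trans (show ξ.1 < β from ξ.2) hβ
  let D : ι → List (ℕ × K κ) × K κ := fun o => match o with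
    | none => (l, ⟨β + 1, succ_lt hω hβ⟩)
    | some q => ((q.1, ⟨q.2.1, hmem q.2⟩) :: l, γ (q.1, ⟨q.2.1, hmem q.2⟩))
  have hι : #ι < Cardinal.lift.{u + 1} κ := by
    have hL : ℵ₀ < Cardinal.lift.{u + 1} κ := by
      simpa using hω
    have h1 : #(ℕ × Set.Iio β) < Cardinal.lift.{u + 1} κ := by
      rw [Cardinal.mk_prod]
      refine Cardinal.mul_lt_of_lt hL.le (by simpa using hω) ?_
      simpa only [Cardinal.lift_id'] using card_Iio_lt hβ
    have h2 : #ι = #(ℕ × Set.Iio β) + 1 := Cardinal.mk_option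
    rw [h2]
    exact Cardinal.add_lt_of_lt hL.le h1 (Cardinal.one_lt_aleph0.trans hL)
  obtain ⟨x, -, hx⟩ := agree ι D hι ⟨β, hβ⟩
  have hx0 : β < hval F l x.1 := by
    have h1 := hx none
    have h2 : min (hval F l x.1) (β + 1) = β + 1 := h1.trans (hl _)
    exact (lt_add_one β).trans_le (min_eq_right_iff.1 h2)
  obtain ⟨n, ξ, hξ, hne⟩ := hβ2 (hval F l x.1) (Set.mem_univ _) hx0
    ((hval_le hF l x.1).trans_lt x.2)
  apply hne
  have hξκ : ξ < κ.ord := hξ.trans hβ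
  have h1 := hx (some (n, ⟨ξ, hξ⟩))
  have h2 : min (hval F ((n, (⟨ξ, hξκ⟩ : K κ)) :: l) x.1) (γ (n, ⟨ξ, hξκ⟩)).1 =
      b' ((n, ⟨ξ, hξκ⟩) :: l) (γ (n, ⟨ξ, hξκ⟩)) := h1
  have h3 := hγ (n, ⟨ξ, hξκ⟩)
  rw [hf n ξ hξκ, ← h2]
  rw [← h2] at h3
  have h4 : hval F ((n, (⟨ξ, hξκ⟩ : K κ)) :: l) x.1 < (γ (n, ⟨ξ, hξκ⟩)).1 := by
    by_contra hge
    exact h3 (min_eq_right (not_lt.1 hge))
  rw [min_eq_left h4.le, hval_cons _ _ _ _ (show ξ < hval F l x.1 from hξ.trans hx0)]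

end Sep98
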