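import Pool.Agent.Helper29.Sep98.Topo
import Pool.Agent.Helper29.Sep98.NotSmall

/-! Examples of small sets. -/

universe u

namespace Sep98

open Cardinal Ordinal

variable {κ : Cardinal.{u}}

theorem SmallSet.mono {I J : Set Ordinal.{u}} (hJ : SmallSet κ J) (h : I ⊆ J) : SmallSet κ I := by
  obtain ⟨F, hF, h2⟩ := hJ
  refine ⟨F, hF, fun f hf => ?_⟩
  obtain ⟨β, hβ, h3⟩ := h2 f hf
  exact ⟨β, hβ, fun α hα => h3 α (h hα)⟩

theorem SmallSet.union {I J : Set Ordinal.{u}} (hI : SmallSet κ I) (hJ : SmallSet κ J) :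
    SmallSet κ (I ∪ J) := by
  obtain ⟨F, hF, h1⟩ := hI
  obtain ⟨G, hG, h2⟩ := hJ
  refine ⟨fun n α ξ => if n % 2 = 0 then F (n / 2) α ξ else G (n / 2) α ξ, ?_, fun f hf => ?_⟩
  · intro n α ξ h
    by_cases hn : n % 2 = 0
    · simp only [hn, if_true]
      exact hF _ _ _ h
    · simp only [hn, if_false]
      exact hG _ _ _ h
  · obtain ⟨β, hβ, h3⟩ := h1 (fun n => f (2 * n)) (fun n => hf _)
    obtain ⟨γ, hγ, h4⟩ := h2 (fun n => f (2 * n + 1)) (fun n => hf _)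
    refine ⟨max β γ, max_lt hβ hγ, fun α hα hlt hακ => ?_⟩
    rcases hα with hα | hα
    · obtain ⟨n, ξ, hξ, hne⟩ := h3 α hα ((le_max_left _ _).trans_lt hlt) hακ
      refine ⟨2 * n, ξ, hξ.trans_le (le_max_left _ _), ?_⟩
      have e1 : 2 * n % 2 = 0 := by omega
      have e2 : 2 * n / 2 = n := by omega
      simp only [e1, e2, if_true]
      exact hne
    · obtain ⟨n, ξ, hξ, hne⟩ := h4 α hα ((le_max_right _ _).trans_lt hlt) hακ
      refine ⟨2 * n + 1, ξ, hξ.trans_le (le_max_right _ _), ?_⟩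
      have e1 : ¬ (2 * n + 1) % 2 = 0 := by omega
      have e2 : (2 * n + 1) / 2 = n := by omega
      simp only [e1, e2, if_false]
      exact hne

/-- the ordinals that are not closure points of `c` -/
theorem small_cl (hω : ℵ₀ < κ) (c : Ordinal.{u} → Ordinal.{u}) (hc : ∀ ξ < κ.ord, c ξ < κ.ord) :
    SmallSet κ {α | ¬ Cl c α} := by
  classical
  have h0 : (0 : Ordinal.{u}) < κ.ord := (Order.IsSuccLimit.bot_lt (isSuccLimit hω))
  have hex : ∀ α : Ordinal.{u}, ∃ ξ, (0 < α → ξ < α) ∧ (0 < α → ¬ Cl c α → α ≤ c ξ) := by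
    intro α
    by_cases h : ∃ ξ < α, α ≤ c ξ
    · obtain ⟨ξ, h1, h2⟩ := h
      exact ⟨ξ, fun _ => h1, fun _ _ => h2⟩
    · push Not at h
      refine ⟨0, fun h1 => h1, fun h1 h2 => ?_⟩
      exact absurd ⟨h1.ne', h⟩ h2
  choose g hg1 hg2 using hex
  refine ⟨fun _ α _ => g α, fun n α ξ h => hg1 α (zero_le.trans_lt h), fun f hf => ?_⟩
  refine ⟨c (f 0 0) + 1, succ_lt hω (hc _ (hf 0 0 h0)), fun α hα hlt hακ => ?_⟩
  refine ⟨0, 0, zero_lt_one.trans_le le_add_self, fun he => ?_⟩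
  have hpos : 0 < α := zero_le.trans_lt hlt
  have h1 := hg2 α hpos hα
  have he' : g α = f 0 0 := he
  rw [he'] at h1
  exact ((h1.trans_lt (lt_add_one _)).trans hlt).false

/-- the ordinals that are not regular uncountable cardinals -/
theorem small_nonreg (hκ : κ.IsRegular) (hω : ℵ₀ < κ) :
    SmallSet κ {α | α ∉ Reg κ} := by
  classical
  have hfs : ∀ α : Ordinal.{u}, ∃ u : Ordinal.{u} → Ordinal.{u},
      (∀ ξ < α.cof.ord, u ξ < α) ∧ ∀ b < α, ∃ ξ < α.cof.ord, b ≤ u ξ := by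
    intro α
    obtain ⟨s, hs⟩ := Ordinal.exists_isFundamentalSeq (o := α) rfl
    refine ⟨fun ξ => if h : ξ < α.cof.ord then (s ⟨ξ, h⟩).1 else 0, fun ξ hξ => ?_, fun b hb => ?_⟩
    · simp only [hξ, dif_pos]
      exact (s ⟨ξ, hξ⟩).2
    · obtain ⟨_, ⟨ξ, rfl⟩, hξ⟩ := hs.isCofinal_range ⟨b, hb⟩
      refine ⟨ξ.1, ξ.2, ?_⟩
      have h1 : ξ.1 < α.cof.ord := ξ.2
      simp only [h1, dif_pos]
      exact hξ
  choose u hu1 hu2 using hfs
  -- coordinate 0 is the cofinality, coordinate 1 the cofinal map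
  let F : ℕ → Ordinal.{u} → Ordinal.{u} → Ordinal.{u} := fun n α ξ =>
    if n = 0 then (if α.cof.ord < α then α.cof.ord else 0)
    else (if ξ < α.cof.ord then u α ξ else 0)
  refine ⟨F, ?_, fun f hf => ?_⟩
  · intro n α ξ h
    have h0 : 0 < α := zero_le.trans_lt h
    simp only [F]
    split_ifs with h1 h2 h3
    · exact h2
    · exact h0
    · exact hu1 α ξ h3
    · exact h0
  · have h0 : (0 : Ordinal.{u}) < κ.ord := hκ.ord_pos
    obtain ⟨b, hb, hb2⟩ := bdd_Iio hκ (f 1) (hf 0 0 h0) (fun ξ hξ => hf 1 ξ (hξ.trans (hf 0 0 h0)))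
    have hωκ : ω < κ.ord := by
      rw [← Cardinal.ord_aleph0]
      exact Cardinal.ord_lt_ord.2 hω
    refine ⟨max (max b ω) (f 0 0), max_lt (max_lt hb hωκ) (hf 0 0 h0), fun α hα hlt hακ => ?_⟩
    have hbα : b < α := (le_max_left _ _).trans_lt ((le_max_left _ _).trans_lt hlt)
    have hωα : ω < α := (le_max_right _ _).trans_lt ((le_max_left _ _).trans_lt hlt)
    -- the cofinality is smaller
    have hcof : α.cof.ord < α := by
      refine lt_of_le_of_ne (Ordinal.ord_cof_le α) fun he => hα ?_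
      have hℵ : ℵ₀ < α.cof := by
        rw [← Cardinal.ord_lt_ord, Cardinal.ord_aleph0, he]
        exact hωα
      refine ⟨α.cof, ⟨hℵ.le, ?_⟩, hℵ, ?_, he.symm⟩
      · rw [he]
      · rw [← Cardinal.ord_lt_ord, he]
        exact hακ
    by_contra hcon
    push Not at hcon
    have hωβ : (0 : Ordinal.{u}) < max (max b ω) (f 0 0) :=
      (Ordinal.omega0_pos.trans_le (le_max_right _ _)).trans_le (le_max_left _ _)
    have e0 : α.cof.ord = f 0 0 := by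
      have h1 := hcon 0 0 hωβ
      simpa [F, hcof] using h1
    have e1 : ∀ ξ < f 0 0, u α ξ = f 1 ξ := by
      intro ξ hξ
      have h1 := hcon 1 ξ (hξ.trans_le (le_max_right _ _))
      have h2 : ξ < α.cof.ord := by rw [e0]; exact hξ
      simpa [F, h2] using h1
    obtain ⟨ξ, hξ, hξ2⟩ := hu2 α b hbα
    rw [e0] at hξ
    rw [e1 ξ hξ] at hξ2
    exact (hξ2.trans_lt (hb2 ξ hξ)).false

/-- stationarity at a regular uncountable cardinal below `κ` -/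
theorem stat_reg {W : Set Ordinal.{u}} {α : Ordinal.{u}} (hα : α ∈ Reg κ) :
    IsStationaryIn W α ↔ StatF W α := by
  obtain ⟨μ, h1, h2, -, rfl⟩ := hα
  exact stat_iff h1 h2

/-- the regular cardinals at which a stationary set does not reflect -/
theorem small_nonrefl (W : Set Ordinal.{u}) (hW : StatF W κ.ord) :
    SmallSet κ {α | α ∈ Reg κ ∧ ¬ IsStationaryIn W α} := by
  classical
  have hex : ∀ α : Ordinal.{u}, ∃ c : Ordinal.{u} → Ordinal.{u}, (∀ ξ < α, c ξ < α) ∧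
      (α ∈ Reg κ → ¬ IsStationaryIn W α → ∀ β ∈ W, β < α → ¬ Cl c β) := by
    intro α
    by_cases h : α ∈ Reg κ ∧ ¬ IsStationaryIn W α
    · have h2 := h.2
      rw [stat_reg h.1] at h2
      have h3 : ∃ c : Ordinal.{u} → Ordinal.{u}, (∀ ξ < α, c ξ < α) ∧
          ¬ ∃ β ∈ W, β < α ∧ Cl c β := by
        by_contra hcon
        push Not at hcon
        exact h2 fun c hc => by
          obtain ⟨β, hβ⟩ := hcon c hc
          exact ⟨β, hβ⟩
      obtain ⟨c, hc, hc2⟩ := h3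
      exact ⟨c, hc, fun _ _ β hβ hβα hcl => hc2 ⟨β, hβ, hβα, hcl⟩⟩
    · exact ⟨fun ξ => ξ, fun ξ hξ => hξ, fun h1 h2 => absurd ⟨h1, h2⟩ h⟩
  choose c hc1 hc2 using hex
  refine ⟨fun _ α ξ => c α ξ, fun n α ξ h => hc1 α ξ h, fun f hf => ?_⟩
  obtain ⟨β, hβW, hβ, hcl⟩ := hW (f 0) (hf 0)
  refine ⟨β, hβ, fun α hα hlt hακ => ?_⟩
  by_contra hcon
  push Not at hcon
  exact hc2 α hα.1 hα.2 β hβW hlt (cl_congr (fun ξ hξ => (hcon 0 ξ hξ).symm) hcl)

/-- the set `W` of the proof -/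
def Wset (κ : Cardinal.{u}) (P Q : Set (BS κ × BS κ)) : Set Ordinal.{u} :=
  {α | α ∈ Reg κ ∧ ¬ ∃ h : Ordinal.{u} → Ordinal.{u}, Loc P α h ∧ Loc Q α h}

theorem small_notW (hω : ℵ₀ < κ) {P Q : Set (BS κ × BS κ)} (hP : IsClosed P) (hQ : IsClosed Q)
    (hd : Disjoint (Prod.fst '' P) (Prod.fst '' Q)) :
    SmallSet κ {α | α ∈ Reg κ ∧ α ∉ Wset κ P Q} := by
  classical
  have h0 : (0 : Ordinal.{u}) < κ.ord := (Order.IsSuccLimit.bot_lt (isSuccLimit hω))
  have hex : ∀ α : Ordinal.{u}, ∃ h g k : Ordinal.{u} → Ordinal.{u}, (∀ ξ < α, h ξ < α) ∧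
      (∀ ξ < α, g ξ < α) ∧ (∀ ξ < α, k ξ < α) ∧ (α ∈ Reg κ → α ∉ Wset κ P Q →
        (∀ γ < α, ∃ p ∈ P, ∀ x : K κ, x.1 < γ → (p.1 x).1 = h x.1 ∧ (p.2 x).1 = g x.1) ∧
        (∀ γ < α, ∃ p ∈ Q, ∀ x : K κ, x.1 < γ → (p.1 x).1 = h x.1 ∧ (p.2 x).1 = k x.1)) := by
    intro α
    by_cases hα : α ∈ Reg κ ∧ α ∉ Wset κ P Q
    · have h1 : ∃ h : Ordinal.{u} → Ordinal.{u}, Loc P α h ∧ Loc Q α h := by
        by_contra hcon
        exact hα.2 ⟨hα.1, hcon⟩
      obtain ⟨h, ⟨hh, g, hg, hg2⟩, ⟨-, k, hk, hk2⟩⟩ := h1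
      exact ⟨h, g, k, hh, hg, hk, fun _ _ => ⟨hg2, hk2⟩⟩
    · exact ⟨fun ξ => ξ, fun ξ => ξ, fun ξ => ξ, fun ξ hξ => hξ, fun ξ hξ => hξ, fun ξ hξ => hξ,
        fun h1 h2 => absurd ⟨h1, h2⟩ hα⟩
  choose h g k hh hg hk hP2 using hex
  refine ⟨fun n α ξ => if n = 0 then h α ξ else if n = 1 then g α ξ else k α ξ, ?_, fun f hf => ?_⟩
  · intro n α ξ hlt
    dsimp only
    split_ifs
    · exact hh α ξ hlt
    · exact hg α ξ hlt
    · exact hk α ξ hlt
  · by_contra hcon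
    push Not at hcon
    obtain ⟨f0, -, hf0⟩ := exists_res (κ := κ) (f 0) (hf 0)
    obtain ⟨f1, -, hf1⟩ := exists_res (κ := κ) (f 1) (hf 1)
    obtain ⟨f2, -, hf2⟩ := exists_res (κ := κ) (f 2) (hf 2)
    have m1 : (f0, f1) ∈ P := by
      refine mem_of_closed h0 hP f0 f1 fun a ha => ?_
      obtain ⟨α, hα, hlt, hακ, hag⟩ := hcon a ha
      obtain ⟨p, hp, hp2⟩ := (hP2 α hα.1 hα.2).1 a hlt
      refine ⟨p, hp, fun x hx => ?_, fun x hx => ?_⟩
      · apply Subtype.ext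
        rw [(hp2 x hx).1, hf0 x]
        have e := hag 0 x.1 hx
        simpa using e.symm
      · apply Subtype.ext
        rw [(hp2 x hx).2, hf1 x]
        have e := hag 1 x.1 hx
        simpa using e.symm
    have m2 : (f0, f2) ∈ Q := by
      refine mem_of_closed h0 hQ f0 f2 fun a ha => ?_
      obtain ⟨α, hα, hlt, hακ, hag⟩ := hcon a ha
      obtain ⟨p, hp, hp2⟩ := (hP2 α hα.1 hα.2).2 a hlt
      refine ⟨p, hp, fun x hx => ?_, fun x hx => ?_⟩
      · apply Subtype.ext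
        rw [(hp2 x hx).1, hf0 x]
        have e := hag 0 x.1 hx
        simpa using e.symm
      · apply Subtype.ext
        rw [(hp2 x hx).2, hf2 x]
        have e := hag 2 x.1 hx
        simpa using e.symm
    exact Set.disjoint_left.1 hd ⟨_, m1, rfl⟩ ⟨_, m2, rfl⟩

end Sep98
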