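import Pool.Agent.Helper29.Sep98.SmallSets

/-! The stationary sets `W`, `T`, `E`, and reflection. -/

universe u

namespace Sep98

open Cardinal Ordinal

variable {κ : Cardinal.{u}}

/-- the set `W` is stationary -/
theorem stat_W (hw : WeaklyCompact κ) {P Q : Set (BS κ × BS κ)} (hP : IsClosed P)
    (hQ : IsClosed Q) (hd : Disjoint (Prod.fst '' P) (Prod.fst '' Q)) :
    StatF (Wset κ P Q) κ.ord := by
  have hκ := hw.1.isRegular
  have hω := hw.1.aleph0_lt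
  by_contra hcon
  have h1 : ∃ c : Ordinal.{u} → Ordinal.{u}, (∀ ξ < κ.ord, c ξ < κ.ord) ∧
      ¬ ∃ α ∈ Wset κ P Q, α < κ.ord ∧ Cl c α := by
    by_contra h2
    push Not at h2
    exact hcon fun c hc => by
      obtain ⟨β, hβ⟩ := h2 c hc
      exact ⟨β, hβ⟩
  obtain ⟨c, hc, hc2⟩ := h1
  apply not_small hw
  refine (((small_cl hω c hc).union (small_nonreg hκ hω)).union
    (small_notW hω hP hQ hd)).mono fun α _ => ?_
  by_cases hr : α ∈ Reg κ
  · by_cases hα : α ∈ Wset κ P Q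
    · refine Or.inl (Or.inl fun hcl => hc2 ⟨α, hα, ?_, hcl⟩)
      obtain ⟨μ, -, -, h3, rfl⟩ := hr
      exact Cardinal.ord_lt_ord.2 h3
    · exact Or.inr ⟨hr, hα⟩
  · exact Or.inl (Or.inr hr)

/-- stationary sets reflect at stationary many regular cardinals -/
theorem stat_T (hw : WeaklyCompact κ) (W : Set Ordinal.{u}) (hW : StatF W κ.ord) :
    StatF {α | α ∈ Reg κ ∧ IsStationaryIn W α} κ.ord := by
  have hκ := hw.1.isRegular
  have hω := hw.1.aleph0_lt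
  by_contra hcon
  have h1 : ∃ c : Ordinal.{u} → Ordinal.{u}, (∀ ξ < κ.ord, c ξ < κ.ord) ∧
      ¬ ∃ α ∈ {α | α ∈ Reg κ ∧ IsStationaryIn W α}, α < κ.ord ∧ Cl c α := by
    by_contra h2
    push Not at h2
    exact hcon fun c hc => by
      obtain ⟨β, hβ⟩ := h2 c hc
      exact ⟨β, hβ⟩
  obtain ⟨c, hc, hc2⟩ := h1
  apply not_small hw
  refine (((small_cl hω c hc).union (small_nonreg hκ hω)).union
    (small_nonrefl W hW)).mono fun α _ => ?_
  by_cases hr : α ∈ Reg κ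
  · by_cases hα : IsStationaryIn W α
    · refine Or.inl (Or.inl fun hcl => hc2 ⟨α, ⟨hr, hα⟩, ?_, hcl⟩)
      obtain ⟨μ, -, -, h3, rfl⟩ := hr
      exact Cardinal.ord_lt_ord.2 h3
    · exact Or.inr ⟨hr, hα⟩
  · exact Or.inl (Or.inr hr)

/-- the non-reflecting part of a stationary set of regular cardinals is stationary -/
theorem stat_E (W : Set Ordinal.{u}) (hW : StatF W κ.ord) (hR : W ⊆ Reg κ) :
    StatF {α | α ∈ W ∧ ¬ IsStationaryIn W α} κ.ord := by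
  classical
  intro c hc
  have hex : ∃ α, α ∈ W ∧ α < κ.ord ∧ Cl c α := by
    obtain ⟨α, h1, h2, h3⟩ := hW c hc
    exact ⟨α, h1, h2, h3⟩
  let α := WellFounded.min (wellFounded_lt (α := Ordinal.{u})) {α | α ∈ W ∧ α < κ.ord ∧ Cl c α} hex
  have hα : α ∈ W ∧ α < κ.ord ∧ Cl c α :=
    WellFounded.min_mem _ {α | α ∈ W ∧ α < κ.ord ∧ Cl c α} hex
  refine ⟨α, ⟨hα.1, fun hs => ?_⟩, hα.2.1, hα.2.2⟩
  rw [stat_reg (hR hα.1)] at hs
  obtain ⟨β, h1, h2, h3⟩ := hs c hα.2.2.2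
  exact WellFounded.not_lt_min (wellFounded_lt (α := Ordinal.{u}))
    {α | α ∈ W ∧ α < κ.ord ∧ Cl c α} ⟨h1, h2.trans hα.2.1, h3⟩ h2

theorem club_top (hω : ℵ₀ < κ) : IsClubIn (Set.Iio κ.ord) κ.ord := by
  refine ⟨fun x h => h, fun a ha => ⟨a + 1, succ_lt hω ha, lt_add_one a⟩, fun d hd _ _ => hd⟩

/-- reflection of the sets of order zero relative to `W` -/
theorem reflect (hω : ℵ₀ < κ) (hF : FullReflection κ) {W S : Set Ordinal.{u}} (hR : W ⊆ Reg κ)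
    (hW : IsStationaryIn W κ.ord) (hS : IsStationaryIn S κ.ord)
    (hSW : ∀ α ∈ S, α ∈ W ∧ ¬ IsStationaryIn W α) :
    Below κ S {α | α ∈ Reg κ ∧ IsStationaryIn W α} := by
  obtain ⟨o, ho⟩ := hF
  let T1 : Set Ordinal.{u} := {α | (α ∈ Reg κ ∧ IsStationaryIn W α) ∧ ¬ IsStationaryIn S α}
  have hSR : S ⊆ Reg κ := fun α hα => hR (hSW α hα).1
  have hT1R : T1 ⊆ Reg κ := fun α hα => hα.1.1
  by_cases hT1 : IsStationaryIn T1 κ.ord
  · exfalso
    have h1 : Below κ W T1 := ⟨Set.Iio κ.ord, club_top hω, fun α hα => hα.1.1.2⟩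
    have h2 := (ho W T1 hR hT1R hW hT1).1 h1
    have h3 : ¬ o W < o S := by
      intro h4
      obtain ⟨α, hα, hα2⟩ := (ho W S hR hSR hW hS).2 h4
      exact (hSW α hα).2 hα2
    have h5 : o S < o T1 := (not_lt.1 h3).trans_lt h2
    obtain ⟨α, hα, hα2⟩ := (ho S T1 hSR hT1R hS hT1).2 h5
    exact hα.2 hα2
  · have h1 : ∃ C, IsClubIn C κ.ord ∧ ¬ (T1 ∩ C).Nonempty := by
      by_contra hcon
      push Not at hcon
      exact hT1 fun C hC => hcon C hC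
    obtain ⟨C, hC, hC2⟩ := h1
    refine ⟨C, hC, fun α hα => ?_⟩
    by_contra hns
    exact hC2 ⟨α, ⟨hα.1, hns⟩, hα.2⟩

end Sep98
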