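import Pool.Agent.Helper29.Sep98.Basic

/-! Topology of the generalized Baire space and the coding of clubs. -/

universe u

namespace Sep98

open Cardinal Ordinal

variable {κ : Cardinal.{u}}

/-- agreement below an ordinal -/
def Agr (a : Ordinal.{u}) (f g : BS κ) : Prop := ∀ x : K κ, x.1 < a → f x = g x

theorem isOpen_cyl (a : K κ) (s : BS κ) : IsOpen {f : BS κ | ∀ x : K κ, x < a → f x = s x} :=
  TopologicalSpace.GenerateOpen.basic _ ⟨a, s, rfl⟩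

theorem open_cyl {U : Set (BS κ)} (h0 : 0 < κ.ord) (hU : IsOpen U) :
    ∀ f ∈ U, ∃ a < κ.ord, ∀ g : BS κ, Agr a f g → g ∈ U := by
  induction hU with
  | basic U hU =>
    obtain ⟨a, s, rfl⟩ := hU
    intro f hf
    refine ⟨a.1, a.2, fun g hg x hx => ?_⟩
    rw [← hg x hx]
    exact hf x hx
  | univ => exact fun f _ => ⟨0, h0, fun g _ => Set.mem_univ g⟩
  | inter U V _ _ ihU ihV =>
    intro f hf
    obtain ⟨a, ha, ha2⟩ := ihU f hf.1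
    obtain ⟨b, hb, hb2⟩ := ihV f hf.2
    refine ⟨max a b, max_lt ha hb, fun g hg => ⟨ha2 g fun x hx => hg x ?_, hb2 g fun x hx => hg x ?_⟩⟩
    · exact hx.trans_le (le_max_left _ _)
    · exact hx.trans_le (le_max_right _ _)
  | sUnion s _ ih =>
    intro f hf
    obtain ⟨U, hU, hfU⟩ := hf
    obtain ⟨a, ha, ha2⟩ := ih U hU f hfU
    exact ⟨a, ha, fun g hg => ⟨U, hU, ha2 g hg⟩⟩

/-- points of the closure -/
theorem mem_of_closed (h0 : 0 < κ.ord) {P : Set (BS κ × BS κ)} (hP : IsClosed P) (f g : BS κ)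
    (h : ∀ a < κ.ord, ∃ p ∈ P, Agr a f p.1 ∧ Agr a g p.2) : (f, g) ∈ P := by
  by_contra hcon
  obtain ⟨U, V, hU, hV, hf, hg, hUV⟩ := isOpen_prod_iff.1 hP.isOpen_compl f g hcon
  obtain ⟨a, ha, ha2⟩ := open_cyl h0 hU f hf
  obtain ⟨b, hb, hb2⟩ := open_cyl h0 hV g hg
  obtain ⟨p, hp, h1, h2⟩ := h (max a b) (max_lt ha hb)
  have h3 : p.1 ∈ U := ha2 p.1 fun x hx => h1 x (hx.trans_le (le_max_left _ _))
  have h4 : p.2 ∈ V := hb2 p.2 fun x hx => h2 x (hx.trans_le (le_max_right _ _))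
  have h5 : (p.1, p.2) ∈ Pᶜ := hUV ⟨h3, h4⟩
  exact h5 hp

/-- a set whose complement is locally determined is closed -/
theorem closed_of_local (P : Set (BS κ × BS κ))
    (h : ∀ f g : BS κ, (f, g) ∉ P → ∃ a < κ.ord, ∀ f' g' : BS κ, Agr a f f' → Agr a g g' →
      (f', g') ∉ P) : IsClosed P := by
  rw [← isOpen_compl_iff, isOpen_prod_iff]
  intro f g hfg
  obtain ⟨a, ha, ha2⟩ := h f g hfg
  refine ⟨_, _, isOpen_cyl ⟨a, ha⟩ f, isOpen_cyl ⟨a, ha⟩ g, fun x _ => rfl, fun x _ => rfl, ?_⟩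
  rintro ⟨f', g'⟩ ⟨h1, h2⟩
  exact ha2 f' g' (fun x hx => (h1 x hx).symm) (fun x hx => (h2 x hx).symm)

/-- extension by zero to all ordinals -/
noncomputable def ext (f : BS κ) (ξ : Ordinal.{u}) : Ordinal.{u} := by
  classical
  exact if h : ξ < κ.ord then (f ⟨ξ, h⟩).1 else 0

theorem ext_eq (f : BS κ) (ξ : Ordinal.{u}) (h : ξ < κ.ord) : ext f ξ = (f ⟨ξ, h⟩).1 := by
  simp [ext, h]

theorem ext_lt (f : BS κ) (ξ : Ordinal.{u}) (h : ξ < κ.ord) : ext f ξ < κ.ord := by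
  rw [ext_eq f ξ h]
  exact (f ⟨ξ, h⟩).2

theorem ext_congr {f g : BS κ} {a : Ordinal.{u}} (h : Agr a f g) (ha : a < κ.ord) :
    ∀ ξ < a, ext f ξ = ext g ξ := by
  intro ξ hξ
  rw [ext_eq f ξ (hξ.trans ha), ext_eq g ξ (hξ.trans ha), h ⟨ξ, hξ.trans ha⟩ hξ]

/-- every function below `κ` is the extension of a point of the Baire space -/
theorem exists_res (c : Ordinal.{u} → Ordinal.{u}) (hc : ∀ ξ < κ.ord, c ξ < κ.ord) :
    ∃ f : BS κ, (∀ ξ < κ.ord, ext f ξ = c ξ) ∧ ∀ x : K κ, (f x).1 = c x.1 := by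
  refine ⟨fun x => ⟨c x.1, hc x.1 x.2⟩, fun ξ hξ => ?_, fun x => rfl⟩
  rw [ext_eq _ ξ hξ]

theorem cl_congr {c c' : Ordinal.{u} → Ordinal.{u}} {α : Ordinal.{u}} (h : ∀ ξ < α, c ξ = c' ξ) :
    Cl c α → Cl c' α := fun hc => ⟨hc.1, fun ξ hξ => by rw [← h ξ hξ]; exact hc.2 ξ hξ⟩

/-- sets defined by a quantifier `for almost all α` over a local property are `Σ¹₁` -/
theorem sigma_of_local (Q : Ordinal.{u} → BS κ → Prop)
    (hQ : ∀ α < κ.ord, ∀ f f' : BS κ, Agr α f f' → Q α f → Q α f') :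
    Sigma11 κ {f | ∃ c : Ordinal.{u} → Ordinal.{u}, (∀ ξ < κ.ord, c ξ < κ.ord) ∧
      ∀ α < κ.ord, Cl c α → Q α f} := by
  refine ⟨{p | ∀ α < κ.ord, Cl (ext p.2) α → Q α p.1}, ?_, ?_⟩
  · apply closed_of_local
    intro f g hfg
    have hfg' : ¬ ∀ α < κ.ord, Cl (ext g) α → Q α f := hfg
    push Not at hfg'
    obtain ⟨α, hα, hcl, hn⟩ := hfg'
    refine ⟨α, hα, fun f' g' h1 h2 hmem => hn ?_⟩
    have h3 : Q α f' := hmem α hα (cl_congr (ext_congr h2 hα) hcl)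
    exact hQ α hα f' f (fun x hx => (h1 x hx).symm) h3
  · ext f
    constructor
    · rintro ⟨c, hc, h⟩
      obtain ⟨g, hg, -⟩ := exists_res c hc
      refine ⟨(f, g), fun α hα hcl => h α hα ?_, rfl⟩
      exact cl_congr (fun ξ hξ => hg ξ (hξ.trans hα)) hcl
    · rintro ⟨⟨f', g⟩, h, rfl⟩
      exact ⟨ext g, fun ξ hξ => ext_lt g ξ hξ, h⟩

/-- `h` restricted to `α` is locally in the projection of `P` -/
def Loc (P : Set (BS κ × BS κ)) (α : Ordinal.{u}) (h : Ordinal.{u} → Ordinal.{u}) : Prop :=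
  (∀ ξ < α, h ξ < α) ∧ ∃ g : Ordinal.{u} → Ordinal.{u}, (∀ ξ < α, g ξ < α) ∧
    ∀ γ < α, ∃ p ∈ P, ∀ x : K κ, x.1 < γ → (p.1 x).1 = h x.1 ∧ (p.2 x).1 = g x.1

theorem loc_congr {P : Set (BS κ × BS κ)} {α : Ordinal.{u}} {h h' : Ordinal.{u} → Ordinal.{u}}
    (hh : ∀ ξ < α, h ξ = h' ξ) (H : Loc P α h) : Loc P α h' := by
  obtain ⟨h1, g, hg, h2⟩ := H
  refine ⟨fun ξ hξ => by rw [← hh ξ hξ]; exact h1 ξ hξ, g, hg, fun γ hγ => ?_⟩
  obtain ⟨p, hp, hp2⟩ := h2 γ hγ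
  refine ⟨p, hp, fun x hx => ?_⟩
  rw [← hh x.1 (hx.trans hγ)]
  exact hp2 x hx

/-- members of the projection are locally in it at almost all ordinals -/
theorem loc_of_mem {P : Set (BS κ × BS κ)} {f : BS κ} (hf : f ∈ Prod.fst '' P) :
    ∃ c : Ordinal.{u} → Ordinal.{u}, (∀ ξ < κ.ord, c ξ < κ.ord) ∧
      ∀ α < κ.ord, Cl c α → Loc P α (ext f) := by
  obtain ⟨⟨f', g⟩, hp, rfl⟩ := hf
  refine ⟨fun ξ => max (ext f' ξ) (ext g ξ), fun ξ hξ => max_lt (ext_lt _ _ hξ) (ext_lt _ _ hξ),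
    fun α hα hcl => ?_⟩
  obtain ⟨h1, h2⟩ := cl_max.1 hcl
  refine ⟨h1.2, ext g, h2.2, fun γ hγ => ⟨(f', g), hp, fun x hx => ?_⟩⟩
  rw [ext_eq _ _ x.2, ext_eq _ _ x.2]
  exact ⟨rfl, rfl⟩

end Sep98
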